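import Mathlib
import Pool.Agent.H12.NetVT3

set_option autoImplicit false

namespace Pool.Agent.Results.MP_2d87f2_co.NoUniformConstant

open Pool.Agent.H12.NetVT

/-- Negative answer to Q2: for some D and every C > 0 there are an infinite connected
vertex-transitive D-regular graph G, a k and a k-net S whose net graph has edge Cheeger constant
below C and below C times the edge Cheeger constant of G, while every finite vertex set of G has at
least as many outer boundary vertices as elements. -/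
theorem result : ∃ D : ℕ, ∀ C : ℝ, 0 < C →
    ∃ (V : Type) (G : SimpleGraph V), Infinite V ∧ G.Connected ∧
      (∀ v : V, (G.neighborSet v).Finite ∧ (G.neighborSet v).ncard = D) ∧
      (∀ u v : V, ∃ φ : G ≃g G, φ u = v) ∧
      (∀ A : Finset V, A.card ≤ Set.ncard {w : V | w ∉ A ∧ ∃ u ∈ A, G.Adj u w}) ∧
      ∃ k : ℕ, 1 ≤ k ∧ ∃ S : Set V,
        Maximal (fun T : Set V => ∀ u ∈ T, ∀ v ∈ T, u ≠ v → k ≤ G.dist u v) S ∧
        ∃ hG hN : ℝ,
          hG = sInf {r : ℝ | ∃ A : Finset V, A.Nonempty ∧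
            r = (Set.ncard {p : V × V | p.1 ∈ A ∧ p.2 ∉ A ∧ G.Adj p.1 p.2} : ℝ) / (A.card : ℝ)} ∧
          hN = sInf {r : ℝ | ∃ A : Finset V, A.Nonempty ∧ (↑A : Set V) ⊆ S ∧
            r = (Set.ncard {p : V × V | p.1 ∈ A ∧ p.2 ∈ S ∧ p.2 ∉ A ∧
                  G.dist p.1 p.2 ≤ 2 * k} : ℝ) / (A.card : ℝ)} ∧
          hN < C * hG ∧ hN < C := by
  have key := pigeon (fun D C => ∃ (V : Type) (G : SimpleGraph V), Infinite V ∧ G.Connected ∧
      (∀ v : V, (G.neighborSet v).Finite ∧ (G.neighborSet v).ncard = D) ∧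
      (∀ u v : V, ∃ φ : G ≃g G, φ u = v) ∧
      (∀ A : Finset V, A.card ≤ Set.ncard {w : V | w ∉ A ∧ ∃ u ∈ A, G.Adj u w}) ∧
      ∃ k : ℕ, 1 ≤ k ∧ ∃ S : Set V,
        Maximal (fun T : Set V => ∀ u ∈ T, ∀ v ∈ T, u ≠ v → k ≤ G.dist u v) S ∧
        ∃ hG hN : ℝ,
          hG = sInf {r : ℝ | ∃ A : Finset V, A.Nonempty ∧
            r = (Set.ncard {p : V × V | p.1 ∈ A ∧ p.2 ∉ A ∧ G.Adj p.1 p.2} : ℝ) / (A.card : ℝ)} ∧
          hN = sInf {r : ℝ | ∃ A : Finset V, A.Nonempty ∧ (↑A : Set V) ⊆ S ∧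
            r = (Set.ncard {p : V × V | p.1 ∈ A ∧ p.2 ∈ S ∧ p.2 ∉ A ∧
                  G.dist p.1 p.2 ≤ 2 * k} : ℝ) / (A.card : ℝ)} ∧
          1 ≤ hG ∧ hN < C) ((4 * 9 ^ 24 + 1) * 9) ?_ ?_
  · obtain ⟨D, hD⟩ := key
    refine ⟨D, fun C hC => ?_⟩
    obtain ⟨V, G, h1, h2, h3, h4, h5, k, hk, S, hS, hG, hN, e1, e2, h6, h7⟩ := hD C hC
    exact ⟨V, G, h1, h2, h3, h4, h5, k, hk, S, hS, hG, hN, e1, e2, by nlinarith, h7⟩
  · rintro D C C' hCC ⟨V, G, h1, h2, h3, h4, h5, k, hk, S, hS, hG, hN, e1, e2, h6, h7⟩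
    exact ⟨V, G, h1, h2, h3, h4, h5, k, hk, S, hS, hG, hN, e1, e2, h6, h7.trans_le hCC⟩
  · intro C hC
    obtain ⟨V, G, h1, h2, h3, h4, h5, h6, k, hk, S, h7, h8, A, h9, h10, h11⟩ := main C hC
    obtain ⟨v0⟩ := h2.nonempty
    refine ⟨(G.neighborSet v0).ncard, h4 v0, V, G, h1, h2,
      fun v => ⟨h3 v, ncard_eq_of_trans h5 v v0⟩, h5, vertex_expand h3 h6, k, hk, S,
      maximal_of_cover h7 h8, _, _, rfl, rfl, one_le_cheeger h3 h6,
      (net_le k S A h9 h10).trans_lt h11⟩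

end Pool.Agent.Results.MP_2d87f2_co.NoUniformConstant
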